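import Mathlib

set_option autoImplicit false

namespace Pool.Agent.TH3.GL3

open Matrix

variable {p : ℕ} [Fact p.Prime] {A : Type} [CommRing A] (π : A →+* ZMod p)

/-- The standing assumptions: `A` looks like `ℤ/p²`. -/
structure Good : Prop where
  surj : Function.Surjective π
  ker : ∀ a, π a = 0 → ∃ b, a = (p : A) * b
  sq : (p : A) * (p : A) = 0
  ne : (p : A) ≠ 0

variable {π}

theorem Good.pi_p : π (p : A) = 0 := by simp

theorem Good.isUnit (h : Good π) {a : A} (ha : π a ≠ 0) : IsUnit a := by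
  obtain ⟨b, hb⟩ := h.surj (π a)⁻¹
  have h1 : π (a * b - 1) = 0 := by
    rw [map_sub, map_mul, hb, map_one, mul_inv_cancel₀ ha, sub_self]
  obtain ⟨c, hc⟩ := h.ker _ h1
  refine IsUnit.of_mul_eq_one (b * (1 - p * c)) ?_
  have h2 : a * b = 1 + p * c := by rw [← hc]; ring
  calc a * (b * (1 - p * c)) = (a * b) * (1 - p * c) := by ring
    _ = 1 - (p * p : A) * (c * c) := by rw [h2]; ring
    _ = 1 := by rw [h.sq]; ring

theorem Good.mul_eq_zero (h : Good π) {a b : A} (ha : π a = 0) (hb : π b = 0) : a * b = 0 := by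
  obtain ⟨c, rfl⟩ := h.ker _ ha
  obtain ⟨d, rfl⟩ := h.ker _ hb
  calc (p : A) * c * (p * d) = (p * p : A) * (c * d) := by ring
    _ = 0 := by rw [h.sq, zero_mul]

variable (π)

/-- Reduction. -/
noncomputable def red : GL (Fin 3) A →* GL (Fin 3) (ZMod p) := GeneralLinearGroup.map π

theorem red_apply (g : GL (Fin 3) A) (i j : Fin 3) : (red π g).val i j = π (g.val i j) :=
  GeneralLinearGroup.map_apply π i j g

theorem red_val (g : GL (Fin 3) A) : (red π g).val = g.val.map π := by
  ext i j
  rw [red_apply, Matrix.map_apply]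

variable {π}

theorem Good.red_surj (h : Good π) : Function.Surjective (red π) := by
  intro g
  choose f hf using h.surj
  let M : Matrix (Fin 3) (Fin 3) A := g.val.map f
  have hM : M.map π = g.val := by
    ext i j
    simp [M, hf]
  have hdet : π M.det = g.val.det := by
    rw [RingHom.map_det, RingHom.mapMatrix_apply, hM]
  have hu : IsUnit M.det := by
    apply h.isUnit
    rw [hdet]
    have : IsUnit g.val.det := (Matrix.isUnit_iff_isUnit_det _).mp g.isUnit
    exact this.ne_zero
  let u : GL (Fin 3) A := ((Matrix.isUnit_iff_isUnit_det M).mpr hu).unit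
  refine ⟨u, ?_⟩
  apply Units.ext
  rw [red_val]
  exact hM

variable (π)

noncomputable def K : Subgroup (GL (Fin 3) A) := (red π).ker

theorem K_normal : (K π).Normal := MonoidHom.normal_ker _

variable {π}

theorem Good.index_K (h : Good π) : (K π).index = Nat.card (GL (Fin 3) (ZMod p)) := by
  unfold K
  rw [Subgroup.index_ker, MonoidHom.range_eq_top.mpr h.red_surj]
  exact Nat.card_congr Subgroup.topEquiv.toEquiv

theorem Good.mem_K_iff (h : Good π) (g : GL (Fin 3) A) :
    g ∈ K π ↔ ∃ Y : Matrix (Fin 3) (Fin 3) A, g.val = 1 + (p : A) • Y := by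
  constructor
  · intro hg
    have hg1 : red π g = 1 := hg
    have h1 : ∀ i j, ∃ b, g.val i j - (1 : Matrix (Fin 3) (Fin 3) A) i j = (p : A) * b := by
      intro i j
      apply h.ker
      rw [map_sub, ← red_apply, hg1]
      by_cases hij : i = j
      · subst hij
        simp
      · simp [hij]
    choose Y hY using h1
    refine ⟨Matrix.of Y, ?_⟩
    ext i j
    have := hY i j
    simp only [Matrix.add_apply, Matrix.smul_apply, Matrix.of_apply, smul_eq_mul]
    rw [← this]
    ring
  · rintro ⟨Y, hY⟩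
    show red π g = 1
    apply Units.ext
    ext i j
    rw [red_apply, hY]
    by_cases hij : i = j
    · subst hij
      simp
    · simp [hij]

/-- The element `1 + pY`. -/
noncomputable def kY (h : Good π) (Y : Matrix (Fin 3) (Fin 3) A) : GL (Fin 3) A where
  val := 1 + (p : A) • Y
  inv := 1 - (p : A) • Y
  val_inv := by
    have h1 : ((p : A) • Y) * ((p : A) • Y) = 0 := by
      rw [Matrix.smul_mul, Matrix.mul_smul, smul_smul, h.sq, zero_smul]
    generalize (p : A) • Y = Z at h1 ⊢
    calc (1 + Z) * (1 - Z) = 1 - Z * Z := by noncomm_ring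
      _ = 1 := by rw [h1, sub_zero]
  inv_val := by
    have h1 : ((p : A) • Y) * ((p : A) • Y) = 0 := by
      rw [Matrix.smul_mul, Matrix.mul_smul, smul_smul, h.sq, zero_smul]
    generalize (p : A) • Y = Z at h1 ⊢
    calc (1 - Z) * (1 + Z) = 1 - Z * Z := by noncomm_ring
      _ = 1 := by rw [h1, sub_zero]

theorem kY_val (h : Good π) (Y : Matrix (Fin 3) (Fin 3) A) : (kY h Y).val = 1 + (p : A) • Y := rfl

theorem kY_mem (h : Good π) (Y : Matrix (Fin 3) (Fin 3) A) : kY h Y ∈ K π :=
  (h.mem_K_iff _).mpr ⟨Y, rfl⟩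

theorem Good.exists_kY (h : Good π) {g : GL (Fin 3) A} (hg : g ∈ K π) : ∃ Y, g = kY h Y := by
  obtain ⟨Y, hY⟩ := (h.mem_K_iff g).mp hg
  exact ⟨Y, Units.ext hY⟩

theorem kY_add (h : Good π) (X Y : Matrix (Fin 3) (Fin 3) A) :
    kY h (X + Y) = kY h X * kY h Y := by
  apply Units.ext
  rw [Units.val_mul, kY_val, kY_val, kY_val]
  have h1 : ((p : A) • X) * ((p : A) • Y) = 0 := by
    rw [Matrix.smul_mul, Matrix.mul_smul, smul_smul, h.sq, zero_smul]
  rw [smul_add]
  generalize (p : A) • X = X' at h1 ⊢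
  generalize (p : A) • Y = Y' at h1 ⊢
  calc 1 + (X' + Y') = 1 + X' + Y' + 0 := by abel
    _ = (1 + X') * (1 + Y') := by
        rw [← h1]; noncomm_ring

theorem kY_zero (h : Good π) : kY h (0 : Matrix (Fin 3) (Fin 3) A) = 1 := by
  apply Units.ext
  rw [kY_val]
  simp

theorem kY_eq (h : Good π) {X Y : Matrix (Fin 3) (Fin 3) A} (hXY : X.map π = Y.map π) :
    kY h X = kY h Y := by
  apply Units.ext
  rw [kY_val, kY_val]
  congr 1
  ext i j
  simp only [Matrix.smul_apply, smul_eq_mul]
  have h1 : π (X i j - Y i j) = 0 := by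
    have := congrFun (congrFun hXY i) j
    simp only [Matrix.map_apply] at this
    rw [map_sub, this, sub_self]
  have h2 := h.mul_eq_zero (Good.pi_p (π := π)) h1
  rw [mul_sub] at h2
  exact sub_eq_zero.mp h2

theorem kY_conj (h : Good π) (g : GL (Fin 3) A) (Y : Matrix (Fin 3) (Fin 3) A) :
    g * kY h Y * g⁻¹ = kY h (g.val * Y * g⁻¹.val) := by
  apply Units.ext
  rw [Units.val_mul, Units.val_mul, kY_val, kY_val]
  calc g.val * (1 + (p : A) • Y) * g⁻¹.val
      = g.val * g⁻¹.val + g.val * ((p : A) • Y) * g⁻¹.val := by noncomm_ring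
    _ = 1 + (p : A) • (g.val * Y * g⁻¹.val) := by
        rw [Units.mul_inv, Matrix.mul_smul, Matrix.smul_mul]

theorem Good.K_comm (h : Good π) : ∀ a ∈ K π, ∀ b ∈ K π, a * b = b * a := by
  intro a ha b hb
  obtain ⟨X, rfl⟩ := h.exists_kY ha
  obtain ⟨Y, rfl⟩ := h.exists_kY hb
  rw [← kY_add, ← kY_add, add_comm]

theorem kY_ne_one (h : Good π) (i : Fin 3) :
    kY h (Matrix.single i i (1 : A)) ≠ 1 := by
  intro h1
  have h2 := congrArg (fun g : GL (Fin 3) A => g.val i i) h1
  simp only [kY_val, Matrix.add_apply, Matrix.one_apply_eq, Matrix.smul_apply,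
    Matrix.single_apply_same, smul_eq_mul, mul_one, Units.val_one] at h2
  apply h.ne
  have h3 : (1 : A) + p = 1 + 0 := by rw [h2, add_zero]
  exact add_left_cancel h3

end Pool.Agent.TH3.GL3
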