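import Mathlib

set_option autoImplicit false

namespace Pool.Agent.TH3.IndIrr

open Finset

variable {G : Type} [Group G] (S : Subgroup G) (χ : S →* ℂ)

/-- The space of functions `f` with `f (s g) = χ s * f g`. -/
def V : Submodule ℂ (G → ℂ) where
  carrier := {f | ∀ (s : S) (g : G), f (s * g) = χ s * f g}
  add_mem' := by
    intro a b ha hb s g
    simp only [Pi.add_apply]
    rw [ha s g, hb s g, mul_add]
  zero_mem' := by
    intro s g
    simp
  smul_mem' := by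
    intro c f hf s g
    simp only [Pi.smul_apply, smul_eq_mul]
    rw [hf s g]
    ring

theorem mem_V {f : G → ℂ} : f ∈ V S χ ↔ ∀ (s : S) (g : G), f (s * g) = χ s * f g := Iff.rfl

/-- Right translation action. -/
def rep : Representation ℂ G (V S χ) where
  toFun h :=
    { toFun := fun f => ⟨fun g => f.1 (g * h), by
        intro s g
        have := f.2 s (g * h)
        simpa [mul_assoc] using this⟩
      map_add' := by
        intro a b
        rfl
      map_smul' := by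
        intro c a
        rfl }
  map_one' := by
    ext f g
    simp
  map_mul' := by
    intro a b
    ext f g
    simp [mul_assoc]

theorem rep_apply (h : G) (f : V S χ) (g : G) : (rep S χ h f).1 g = f.1 (g * h) := rfl

theorem chi_mul_inv (s : S) : χ s * χ s⁻¹ = 1 := by
  rw [← map_mul, mul_inv_cancel, map_one]

theorem chi_ne_zero (s : S) : χ s ≠ 0 := by
  intro h
  have := chi_mul_inv S χ s
  rw [h, zero_mul] at this
  exact zero_ne_one this

/-- The index set: right cosets. -/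
abbrev Q := Quotient (QuotientGroup.rightRel S)

theorem rel_out (g : G) : g * (Quotient.out (Quotient.mk (QuotientGroup.rightRel S) g))⁻¹ ∈ S := by
  have h := Quotient.mk_out (s := QuotientGroup.rightRel S) g
  exact QuotientGroup.rightRel_apply.mp h

theorem mk_mul_left (s : S) (g : G) :
    Quotient.mk (QuotientGroup.rightRel S) ((s : G) * g) =
      Quotient.mk (QuotientGroup.rightRel S) g := by
  apply Quotient.sound
  refine QuotientGroup.rightRel_apply.mpr ?_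
  have : g * ((s : G) * g)⁻¹ = (s : G)⁻¹ := by group
  rw [this]
  exact S.inv_mem s.2

noncomputable def equivFun : V S χ ≃ₗ[ℂ] (Q S → ℂ) where
  toFun f := fun c => f.1 (Quotient.out c)
  map_add' := by
    intro a b
    rfl
  map_smul' := by
    intro c a
    rfl
  invFun F := ⟨fun g => χ ⟨_, rel_out S g⟩ * F (Quotient.mk _ g), by
    intro s g
    have h1 : (⟨_, rel_out S ((s : G) * g)⟩ : S) = s * ⟨_, rel_out S g⟩ := by
      apply Subtype.ext
      simp only [Subgroup.coe_mul]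
      rw [mk_mul_left S s g, mul_assoc]
    show χ _ * F _ = χ s * (χ _ * F _)
    rw [h1, mk_mul_left S s g, map_mul, mul_assoc]⟩
  left_inv := by
    intro f
    apply Subtype.ext
    funext g
    show χ _ * f.1 _ = f.1 g
    rw [← f.2]
    simp
  right_inv := by
    intro F
    funext c
    show χ _ * F _ = F c
    have h2 : Quotient.mk (QuotientGroup.rightRel S) (Quotient.out c) = c := Quotient.out_eq c
    have h1 : (⟨_, rel_out S (Quotient.out c)⟩ : S) = 1 := by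
      apply Subtype.ext
      simp only [Subgroup.coe_one]
      rw [h2]
      simp
    rw [h1, h2, map_one, one_mul]

theorem finrank_eq [Finite G] : Module.finrank ℂ (V S χ) = S.index := by
  classical
  have : Fintype (Q S) := Fintype.ofFinite _
  rw [LinearEquiv.finrank_eq (equivFun S χ), Module.finrank_fintype_fun_eq_card,
    ← Nat.card_eq_fintype_card]
  rw [Subgroup.index]
  exact Nat.card_congr (QuotientGroup.quotientRightRelEquivQuotientLeftRel S)

theorem finiteDimensional [Finite G] : FiniteDimensional ℂ (V S χ) := by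
  classical
  have : Fintype (Q S) := Fintype.ofFinite _
  exact LinearEquiv.finiteDimensional (equivFun S χ).symm

/-- delta function -/
noncomputable def delta : V S χ := by
  classical
  exact ⟨fun g => if h : g ∈ S then χ ⟨g, h⟩ else 0, by
    intro s g
    by_cases hg : g ∈ S
    · have hsg : (s : G) * g ∈ S := S.mul_mem s.2 hg
      show (if h : (s : G) * g ∈ S then χ ⟨_, h⟩ else 0) = χ s * (if h : g ∈ S then χ ⟨g, h⟩ else 0)
      rw [dif_pos hg, dif_pos hsg, ← map_mul]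
      rfl
    · have hsg : ¬ (s : G) * g ∈ S := by
        intro h
        exact hg ((S.mul_mem_cancel_left s.2).mp h)
      show (if h : (s : G) * g ∈ S then χ ⟨_, h⟩ else 0) = χ s * (if h : g ∈ S then χ ⟨g, h⟩ else 0)
      rw [dif_neg hg, dif_neg hsg, mul_zero]⟩

theorem delta_of_mem {g : G} (h : g ∈ S) : (delta S χ).1 g = χ ⟨g, h⟩ := by
  classical
  show (if h : g ∈ S then χ ⟨g, h⟩ else 0) = _
  rw [dif_pos h]

theorem delta_of_not_mem {g : G} (h : ¬ g ∈ S) : (delta S χ).1 g = 0 := by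
  classical
  show (if h : g ∈ S then χ ⟨g, h⟩ else 0) = _
  rw [dif_neg h]

theorem delta_one : (delta S χ).1 1 = 1 := by
  rw [delta_of_mem S χ S.one_mem]
  exact map_one χ

/-- `f = (1/|S|) ∑ f(g) ρ(g⁻¹) δ` -/
theorem expand [Fintype G] (f : V S χ) :
    (Nat.card S : ℂ) • f = ∑ g : G, f.1 g • (rep S χ g⁻¹ (delta S χ)) := by
  classical
  apply Subtype.ext
  funext x
  have h1 : ((∑ g : G, f.1 g • (rep S χ g⁻¹ (delta S χ)) : V S χ) : G → ℂ) x
      = ∑ g : G, f.1 g * (delta S χ).1 (x * g⁻¹) := by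
    rw [Submodule.coe_sum, Finset.sum_apply]
    rfl
  rw [h1]
  have h2 : ∑ g : G, f.1 g * (delta S χ).1 (x * g⁻¹)
      = ∑ t : G, f.1 (t⁻¹ * x) * (delta S χ).1 t := by
    refine Finset.sum_bij' (fun g _ => x * g⁻¹) (fun t _ => t⁻¹ * x) ?_ ?_ ?_ ?_ ?_
    · intro a _; exact Finset.mem_univ _
    · intro a _; exact Finset.mem_univ _
    · intro a _; simp
    · intro a _; simp
    · intro a _; simp
  rw [h2]
  have h3 : ∀ t : G, f.1 (t⁻¹ * x) * (delta S χ).1 t = if t ∈ S then f.1 x else 0 := by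
    intro t
    by_cases ht : t ∈ S
    · rw [if_pos ht, delta_of_mem S χ ht]
      have h4 := f.2 ⟨t⁻¹, S.inv_mem ht⟩ x
      simp only at h4
      rw [h4]
      have h5 := chi_mul_inv S χ ⟨t, ht⟩
      have h6 : (⟨t, ht⟩ : S)⁻¹ = ⟨t⁻¹, S.inv_mem ht⟩ := rfl
      rw [h6] at h5
      calc χ ⟨t⁻¹, S.inv_mem ht⟩ * f.1 x * χ ⟨t, ht⟩
          = (χ ⟨t, ht⟩ * χ ⟨t⁻¹, S.inv_mem ht⟩) * f.1 x := by ring
        _ = f.1 x := by rw [h5, one_mul]
    · rw [if_neg ht, delta_of_not_mem S χ ht, mul_zero]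
  rw [Finset.sum_congr rfl (fun t _ => h3 t), Finset.sum_ite, Finset.sum_const_zero, add_zero,
    Finset.sum_const]
  have h7 : (Finset.univ.filter (fun t : G => t ∈ S)).card = Nat.card S := by
    rw [Nat.card_eq_fintype_card, Fintype.card_subtype]
  rw [h7]
  simp

/-- Irreducibility of the induced representation under the Mackey type condition with respect to
a normal subgroup `K ≤ S`. -/
theorem irreducible [Finite G] (K : Subgroup G) (hK : K.Normal) (hKS : K ≤ S)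
    (hM : ∀ g : G, g ∉ S → ∃ (k : G) (hk : k ∈ K),
      χ ⟨g * k * g⁻¹, hKS (hK.conj_mem k hk g)⟩ ≠ χ ⟨k, hKS hk⟩)
    (W : Submodule ℂ (V S χ)) (hW : ∀ g v, v ∈ W → rep S χ g v ∈ W) : W = ⊥ ∨ W = ⊤ := by
  classical
  have : Fintype G := Fintype.ofFinite G
  by_cases hbot : W = ⊥
  · exact Or.inl hbot
  right
  obtain ⟨f0, hf0W, hf0⟩ := (Submodule.ne_bot_iff W).mp hbot
  -- find `g0` with `f0 g0 ≠ 0`
  obtain ⟨g0, hg0⟩ : ∃ g0, f0.1 g0 ≠ 0 := by
    by_contra hcon
    push Not at hcon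
    apply hf0
    apply Subtype.ext
    funext g
    exact hcon g
  let f : V S χ := rep S χ g0 f0
  have hfW : f ∈ W := hW g0 f0 hf0W
  have hf1 : f.1 1 ≠ 0 := by
    show f0.1 (1 * g0) ≠ 0
    rwa [one_mul]
  let cK : K → ℂ := fun k => χ ⟨(k : G)⁻¹, hKS (K.inv_mem k.2)⟩
  let e : V S χ := ∑ k : K, cK k • rep S χ (k : G) f
  have heW : e ∈ W := Submodule.sum_mem _ (fun k _ => Submodule.smul_mem _ _ (hW _ _ hfW))
  have he : ∀ g, e.1 g = ∑ k : K, cK k * f.1 (g * k) := by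
    intro g
    show ((∑ k : K, cK k • rep S χ (k : G) f : V S χ) : G → ℂ) g = _
    rw [Submodule.coe_sum, Finset.sum_apply]
    rfl
  have hconj : ∀ (g : G) (k : K), f.1 (g * k) =
      χ ⟨g * k * g⁻¹, hKS (hK.conj_mem k k.2 g)⟩ * f.1 g := by
    intro g k
    have := f.2 ⟨g * k * g⁻¹, hKS (hK.conj_mem k k.2 g)⟩ g
    rw [← this]
    simp
  have he2 : ∀ g, e.1 g =
      (∑ k : K, cK k * χ ⟨g * k * g⁻¹, hKS (hK.conj_mem k k.2 g)⟩) * f.1 g := by
    intro g
    rw [he g, Finset.sum_mul]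
    refine Finset.sum_congr rfl (fun k _ => ?_)
    rw [hconj g k]
    ring
  -- off `S` the sum vanishes
  have hoff : ∀ g, g ∉ S → e.1 g = 0 := by
    intro g hg
    rw [he2 g]
    obtain ⟨k0, hk0, hne⟩ := hM g hg
    set sig0 := ∑ k : K, cK k * χ ⟨g * k * g⁻¹, hKS (hK.conj_mem k k.2 g)⟩ with hsig0
    -- multiply by translation
    have key : sig0 * (χ ⟨g * k0 * g⁻¹, hKS (hK.conj_mem k0 hk0 g)⟩ * χ ⟨k0⁻¹, hKS (K.inv_mem hk0)⟩)
        = sig0 := by
      rw [hsig0, Finset.sum_mul]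
      refine Fintype.sum_equiv (Equiv.mulRight (⟨k0, hk0⟩ : K)) _ _ (fun k => ?_)
      simp only [cK, Equiv.coe_mulRight]
      have e1 : (⟨((k * ⟨k0, hk0⟩ : K) : G)⁻¹, hKS (K.inv_mem (k * ⟨k0, hk0⟩ : K).2)⟩ : S)
          = ⟨k0⁻¹, hKS (K.inv_mem hk0)⟩ * ⟨(k : G)⁻¹, hKS (K.inv_mem k.2)⟩ := by
        apply Subtype.ext
        simp
      have e2 : (⟨g * ((k * ⟨k0, hk0⟩ : K) : G) * g⁻¹,
            hKS (hK.conj_mem _ (k * ⟨k0, hk0⟩ : K).2 g)⟩ : S)
          = ⟨g * k * g⁻¹, hKS (hK.conj_mem k k.2 g)⟩ *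
            ⟨g * k0 * g⁻¹, hKS (hK.conj_mem k0 hk0 g)⟩ := by
        apply Subtype.ext
        simp only [Subgroup.coe_mul]
        group
      rw [e1, e2, map_mul, map_mul]
      ring
    have hne1 : χ ⟨g * k0 * g⁻¹, hKS (hK.conj_mem k0 hk0 g)⟩ * χ ⟨k0⁻¹, hKS (K.inv_mem hk0)⟩ ≠ 1 := by
      intro h1
      apply hne
      have h5 := chi_mul_inv S χ ⟨k0, hKS hk0⟩
      have h6 : (⟨k0, hKS hk0⟩ : S)⁻¹ = ⟨k0⁻¹, hKS (K.inv_mem hk0)⟩ := rfl
      rw [h6] at h5
      calc χ ⟨g * k0 * g⁻¹, hKS (hK.conj_mem k0 hk0 g)⟩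
          = χ ⟨g * k0 * g⁻¹, hKS (hK.conj_mem k0 hk0 g)⟩ *
              (χ ⟨k0, hKS hk0⟩ * χ ⟨k0⁻¹, hKS (K.inv_mem hk0)⟩) := by rw [h5, mul_one]
        _ = (χ ⟨g * k0 * g⁻¹, hKS (hK.conj_mem k0 hk0 g)⟩ * χ ⟨k0⁻¹, hKS (K.inv_mem hk0)⟩) *
              χ ⟨k0, hKS hk0⟩ := by ring
        _ = χ ⟨k0, hKS hk0⟩ := by rw [h1, one_mul]
    have hz : sig0 = 0 := by
      by_contra hnz
      apply hne1
      have := mul_left_cancel₀ hnz (key.trans (mul_one sig0).symm)
      exact this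
    rw [hz, zero_mul]
  -- on `S` it is `|K| * f 1 * χ`
  have hon : ∀ g (hg : g ∈ S), e.1 g = (Nat.card K : ℂ) * f.1 1 * χ ⟨g, hg⟩ := by
    intro g hg
    rw [he2 g]
    have h1 : ∀ k : K, cK k * χ ⟨g * k * g⁻¹, hKS (hK.conj_mem k k.2 g)⟩ = 1 := by
      intro k
      have e2 : (⟨g * k * g⁻¹, hKS (hK.conj_mem k k.2 g)⟩ : S)
          = ⟨g, hg⟩ * ⟨k, hKS k.2⟩ * ⟨g, hg⟩⁻¹ := rfl
      rw [e2, map_mul, map_mul]
      have h5 := chi_mul_inv S χ ⟨k, hKS k.2⟩
      have h6 := chi_mul_inv S χ ⟨g, hg⟩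
      have h7 : cK k = χ (⟨k, hKS k.2⟩ : S)⁻¹ := rfl
      rw [h7]
      calc χ (⟨k, hKS k.2⟩ : S)⁻¹ * (χ ⟨g, hg⟩ * χ ⟨k, hKS k.2⟩ * χ (⟨g, hg⟩ : S)⁻¹)
          = (χ ⟨k, hKS k.2⟩ * χ (⟨k, hKS k.2⟩ : S)⁻¹) * (χ ⟨g, hg⟩ * χ (⟨g, hg⟩ : S)⁻¹) := by ring
        _ = 1 := by rw [h5, h6, one_mul]
    rw [Finset.sum_congr rfl (fun k _ => h1 k), Finset.sum_const, Finset.card_univ]
    have h2 : f.1 g = χ ⟨g, hg⟩ * f.1 1 := by
      have := f.2 ⟨g, hg⟩ 1
      simpa using this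
    rw [h2, Nat.card_eq_fintype_card]
    simp
    ring
  have hdelta : e = ((Nat.card K : ℂ) * f.1 1) • delta S χ := by
    apply Subtype.ext
    funext g
    by_cases hg : g ∈ S
    · rw [hon g hg]
      show _ = _ * (delta S χ).1 g
      rw [delta_of_mem S χ hg]
    · rw [hoff g hg]
      show _ = _ * (delta S χ).1 g
      rw [delta_of_not_mem S χ hg, mul_zero]
  have hKne : (Nat.card K : ℂ) ≠ 0 := by
    have : Nat.card K ≠ 0 := Nat.card_pos.ne'
    exact_mod_cast this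
  have hSne : (Nat.card S : ℂ) ≠ 0 := by
    have : Nat.card S ≠ 0 := Nat.card_pos.ne'
    exact_mod_cast this
  have hdW : delta S χ ∈ W := by
    rw [hdelta] at heW
    exact (Submodule.smul_mem_iff _ (mul_ne_zero hKne hf1)).mp heW
  rw [eq_top_iff]
  intro v _
  have hv := expand S χ v
  have : (Nat.card S : ℂ) • v ∈ W := by
    rw [hv]
    exact Submodule.sum_mem _ (fun g _ => Submodule.smul_mem _ _ (hW _ _ hdW))
  exact (Submodule.smul_mem_iff _ hSne).mp this

end Pool.Agent.TH3.IndIrr
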