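import Mathlib
import Pool.Agent.TH3.GL3
import Pool.Agent.TH3.IndIrr

set_option autoImplicit false

namespace Pool.Agent.TH3.PartA

open Matrix Pool.Agent.TH3.GL3

variable {p : ℕ} [Fact p.Prime]

/-- `diag(1,2,3)` over any commutative ring. -/
def D (B : Type) [CommRing B] : Matrix (Fin 3) (Fin 3) B :=
  Matrix.diagonal (fun i => ((i.val + 1 : ℕ) : B))

/-- The diagonal torus, as the centraliser of `diag(1,2,3)`. -/
def T (p : ℕ) [Fact p.Prime] : Subgroup (GL (Fin 3) (ZMod p)) where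
  carrier := {g | g.val * D (ZMod p) = D (ZMod p) * g.val}
  mul_mem' := by
    intro a b ha hb
    show a.val * b.val * D (ZMod p) = D (ZMod p) * (a.val * b.val)
    rw [Matrix.mul_assoc, hb, ← Matrix.mul_assoc, ha, Matrix.mul_assoc]
  one_mem' := by
    show (1 : Matrix (Fin 3) (Fin 3) (ZMod p)) * D (ZMod p) = D (ZMod p) * 1
    rw [Matrix.one_mul, Matrix.mul_one]
  inv_mem' := by
    intro a ha
    show a⁻¹.val * D (ZMod p) = D (ZMod p) * a⁻¹.val
    calc a⁻¹.val * D (ZMod p) = a⁻¹.val * D (ZMod p) * (a.val * a⁻¹.val) := by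
          rw [Units.mul_inv, Matrix.mul_one]
      _ = a⁻¹.val * (D (ZMod p) * a.val) * a⁻¹.val := by simp only [Matrix.mul_assoc]
      _ = a⁻¹.val * (a.val * D (ZMod p)) * a⁻¹.val := by rw [show a.val * D (ZMod p) = _ from ha]
      _ = (a⁻¹.val * a.val) * D (ZMod p) * a⁻¹.val := by simp only [Matrix.mul_assoc]
      _ = D (ZMod p) * a⁻¹.val := by rw [Units.inv_mul, Matrix.one_mul]

theorem mem_T {g : GL (Fin 3) (ZMod p)} : g ∈ T p ↔ g.val * D (ZMod p) = D (ZMod p) * g.val :=
  Iff.rfl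

theorem cast_ne (hp : 5 ≤ p) {i j : Fin 3} (hij : i ≠ j) :
    ((i.val + 1 : ℕ) : ZMod p) ≠ ((j.val + 1 : ℕ) : ZMod p) := by
  intro h
  rw [ZMod.natCast_eq_natCast_iff'] at h
  rw [Nat.mod_eq_of_lt (by omega), Nat.mod_eq_of_lt (by omega)] at h
  apply hij
  apply Fin.ext
  omega

theorem offdiag (hp : 5 ≤ p) {g : GL (Fin 3) (ZMod p)} (hg : g ∈ T p) {i j : Fin 3}
    (hij : i ≠ j) : g.val i j = 0 := by
  have h1 := congrFun (congrFun (mem_T.mp hg) i) j
  rw [D, Matrix.mul_diagonal, Matrix.diagonal_mul] at h1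
  have h2 : (((i.val + 1 : ℕ) : ZMod p) - ((j.val + 1 : ℕ) : ZMod p)) * g.val i j = 0 := by
    rw [sub_mul, ← h1]
    ring
  rcases mul_eq_zero.mp h2 with h3 | h3
  · exact absurd (sub_eq_zero.mp h3) (cast_ne hp hij)
  · exact h3

theorem eq_diagonal (hp : 5 ≤ p) {g : GL (Fin 3) (ZMod p)} (hg : g ∈ T p) :
    g.val = Matrix.diagonal (fun i => g.val i i) := by
  ext i j
  by_cases hij : i = j
  · subst hij
    simp
  · rw [Matrix.diagonal_apply_ne _ hij, offdiag hp hg hij]

noncomputable def diagUnit (u : Fin 3 → (ZMod p)ˣ) : GL (Fin 3) (ZMod p) where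
  val := Matrix.diagonal (fun i => (u i : ZMod p))
  inv := Matrix.diagonal (fun i => ((u i)⁻¹ : (ZMod p)ˣ).val)
  val_inv := by
    rw [Matrix.diagonal_mul_diagonal, ← Matrix.diagonal_one]
    congr 1
    funext i
    exact Units.mul_inv (u i)
  inv_val := by
    rw [Matrix.diagonal_mul_diagonal, ← Matrix.diagonal_one]
    congr 1
    funext i
    exact Units.inv_mul (u i)

theorem diagUnit_mem (u : Fin 3 → (ZMod p)ˣ) : diagUnit u ∈ T p := by
  rw [mem_T]
  show Matrix.diagonal _ * D (ZMod p) = D (ZMod p) * Matrix.diagonal _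
  rw [D, Matrix.diagonal_mul_diagonal, Matrix.diagonal_mul_diagonal]
  congr 1
  funext i
  ring

theorem card_T (hp : 5 ≤ p) : Nat.card (T p) = (p - 1) ^ 3 := by
  have h1 : Function.Bijective (fun u : Fin 3 → (ZMod p)ˣ => (⟨diagUnit u, diagUnit_mem u⟩ : T p)) := by
    constructor
    · intro u v huv
      have h2 : (diagUnit u).val = (diagUnit v).val := congrArg (fun x : T p => x.1.val) huv
      funext i
      apply Units.ext
      have h3 := congrFun (congrFun h2 i) i
      change Matrix.diagonal (fun i => (u i : ZMod p)) i i =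
        Matrix.diagonal (fun i => (v i : ZMod p)) i i at h3
      rw [Matrix.diagonal_apply_eq, Matrix.diagonal_apply_eq] at h3
      exact h3
    · rintro ⟨g, hg⟩
      have hd := eq_diagonal hp hg
      have hdet : IsUnit g.val.det := (Matrix.isUnit_iff_isUnit_det _).mp g.isUnit
      rw [hd, Matrix.det_diagonal] at hdet
      have hne : ∀ i, g.val i i ≠ 0 := by
        intro i h0
        apply hdet.ne_zero
        exact Finset.prod_eq_zero (Finset.mem_univ i) h0
      refine ⟨fun i => Units.mk0 (g.val i i) (hne i), ?_⟩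
      apply Subtype.ext
      apply Units.ext
      exact hd.symm
  rw [← Nat.card_congr (Equiv.ofBijective _ h1), Nat.card_eq_fintype_card]
  rw [Fintype.card_fun, ZMod.card_units, Fintype.card_fin]

theorem index_T (hp : 5 ≤ p) : (T p).index = p ^ 3 * (p + 1) * (p ^ 2 + p + 1) := by
  have h1 : (T p).index * Nat.card (T p) = Nat.card (GL (Fin 3) (ZMod p)) :=
    Subgroup.index_mul_card (T p)
  rw [card_T hp, Matrix.card_GL_field, ZMod.card, Fin.prod_univ_three] at h1
  simp only [Fin.val_zero, pow_zero, Fin.val_one, pow_one, Fin.val_two] at h1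
  obtain ⟨m, rfl⟩ : ∃ m, p = m + 1 := ⟨p - 1, by omega⟩
  have hm : 0 < m := by omega
  have e1 : (m + 1) ^ 3 - 1 = m * ((m + 1) ^ 2 + (m + 1) + 1) := by
    have : (m + 1) ^ 3 = m * ((m + 1) ^ 2 + (m + 1) + 1) + 1 := by ring
    omega
  have e2 : (m + 1) ^ 3 - (m + 1) = m * ((m + 1) * (m + 2)) := by
    have : (m + 1) ^ 3 = m * ((m + 1) * (m + 2)) + (m + 1) := by ring
    omega
  have e3 : (m + 1) ^ 3 - (m + 1) ^ 2 = m * (m + 1) ^ 2 := by
    have : (m + 1) ^ 3 = m * (m + 1) ^ 2 + (m + 1) ^ 2 := by ring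
    omega
  rw [e1, e2, e3] at h1
  have h2 : (T (m + 1)).index * m ^ 3 =
      ((m + 1) ^ 3 * (m + 1 + 1) * ((m + 1) ^ 2 + (m + 1) + 1)) * m ^ 3 := by
    have : m + 1 - 1 = m := by omega
    rw [this] at h1
    rw [h1]
    ring
  exact Nat.eq_of_mul_eq_mul_right (pow_pos hm 3) h2

variable {A : Type} [CommRing A] {π : A →+* ZMod p}

/-- The stabiliser. -/
noncomputable def S (π : A →+* ZMod p) : Subgroup (GL (Fin 3) A) := (T p).comap (red π)

theorem K_le_S : K π ≤ S π := by
  intro g hg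
  show red π g ∈ T p
  rw [show red π g = 1 from hg]
  exact (T p).one_mem

theorem index_S (h : Good π) (hp : 5 ≤ p) :
    (S π).index = p ^ 3 * (p + 1) * (p ^ 2 + p + 1) := by
  rw [← index_T hp]
  exact Subgroup.index_comap_of_surjective _ h.red_surj

theorem S_offdiag (hp : 5 ≤ p) {g : GL (Fin 3) A} (hg : g ∈ S π) {i j : Fin 3}
    (hij : i ≠ j) : π (g.val i j) = 0 := by
  rw [← red_apply]
  exact offdiag hp hg hij

theorem S_diag_mul (h : Good π) (hp : 5 ≤ p) {g k : GL (Fin 3) A} (hg : g ∈ S π) (hk : k ∈ S π)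
    (i : Fin 3) : (g * k).val i i = g.val i i * k.val i i := by
  rw [Units.val_mul, Matrix.mul_apply]
  refine Finset.sum_eq_single i (fun j _ hj => ?_) (fun hi => absurd (Finset.mem_univ i) hi)
  exact h.mul_eq_zero (S_offdiag hp hg (Ne.symm hj)) (S_offdiag hp hk hj)

/-- The linear character of the stabiliser. -/
noncomputable def chi (h : Good π) (hp : 5 ≤ p) (χ : A →* ℂ) : S π →* ℂ where
  toFun s := ∏ i : Fin 3, χ (s.1.val i i) ^ (i.val + 1)
  map_one' := by
    simp
  map_mul' := by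
    intro s t
    rw [← Finset.prod_mul_distrib]
    refine Finset.prod_congr rfl (fun i _ => ?_)
    rw [Subgroup.coe_mul, S_diag_mul h hp s.2 t.2 i, map_mul, mul_pow]

/-- The additive character. -/
noncomputable def e (χ : A →* ℂ) (a : A) : ℂ := χ (1 + (p : A) * a)

theorem e_add (h : Good π) (χ : A →* ℂ) (a b : A) :
    e (p := p) χ (a + b) = e (p := p) χ a * e (p := p) χ b := by
  unfold e
  rw [← map_mul]
  congr 1
  calc 1 + (p : A) * (a + b) = 1 + (p : A) * (a + b) + (p * p) * (a * b) := by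
        rw [h.sq]; ring
    _ = (1 + (p : A) * a) * (1 + (p : A) * b) := by ring

omit [Fact p.Prime] in
theorem e_zero (χ : A →* ℂ) : e (p := p) χ 0 = 1 := by
  unfold e
  rw [mul_zero, add_zero, map_one]

theorem e_nsmul (h : Good π) (χ : A →* ℂ) (n : ℕ) (a : A) :
    e (p := p) χ (n * a) = e (p := p) χ a ^ n := by
  induction n with
  | zero => simp [e_zero]
  | succ n ih =>
    rw [Nat.cast_succ, add_mul, one_mul, e_add h, ih, pow_succ]

theorem e_ne_zero (h : Good π) (χ : A →* ℂ) (a : A) : e (p := p) χ a ≠ 0 := by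
  intro h0
  have h1 := e_add h χ a (-a)
  rw [add_neg_cancel, e_zero, h0, zero_mul] at h1
  exact one_ne_zero h1

theorem chi_kY (h : Good π) (hp : 5 ≤ p) (χ : A →* ℂ) (Y : Matrix (Fin 3) (Fin 3) A)
    (hY : kY h Y ∈ S π) : chi h hp χ ⟨kY h Y, hY⟩ = e (p := p) χ ((D A * Y).trace) := by
  show ∏ i : Fin 3, χ ((kY h Y).val i i) ^ (i.val + 1) = _
  have h1 : ∀ i : Fin 3, χ ((kY h Y).val i i) ^ (i.val + 1) =
      e (p := p) χ (((i.val + 1 : ℕ) : A) * Y i i) := by
    intro i
    rw [e_nsmul h]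
    congr 1
    rw [kY_val]
    simp [e]
  rw [Finset.prod_congr rfl (fun i _ => h1 i), Fin.prod_univ_three]
  rw [← e_add h, ← e_add h]
  congr 1
  rw [Matrix.trace, Fin.sum_univ_three]
  simp only [D, Matrix.diag_apply, Matrix.diagonal_mul]

theorem mackey (h : Good π) (hp : 5 ≤ p) (χ : A →* ℂ) (hχ : e (p := p) χ 1 ≠ 1)
    (g : GL (Fin 3) A) (hg : g ∉ S π) :
    ∃ (k : GL (Fin 3) A) (hk : k ∈ K π),
      chi h hp χ ⟨g * k * g⁻¹, K_le_S ((K_normal π).conj_mem k hk g)⟩ ≠
        chi h hp χ ⟨k, K_le_S hk⟩ := by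
  by_contra hcon
  push Not at hcon
  apply hg
  have h1 : ∀ Y : Matrix (Fin 3) (Fin 3) A,
      e (p := p) χ ((g⁻¹.val * D A * g.val * Y).trace) = e (p := p) χ ((D A * Y).trace) := by
    intro Y
    have h2 := hcon (kY h Y) (kY_mem h Y)
    rw [chi_kY] at h2
    have h3 : chi h hp χ ⟨g * kY h Y * g⁻¹, K_le_S ((K_normal π).conj_mem _ (kY_mem h Y) g)⟩
        = e (p := p) χ ((D A * (g.val * Y * g⁻¹.val)).trace) := by
      rw [← chi_kY h hp χ _ (K_le_S (kY_mem h _))]
      congr 1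
      apply Subtype.ext
      exact kY_conj h g Y
    rw [h3] at h2
    rw [← h2]
    congr 1
    calc (g⁻¹.val * D A * g.val * Y).trace = (g⁻¹.val * (D A * g.val * Y)).trace := by
          simp only [Matrix.mul_assoc]
      _ = ((D A * g.val * Y) * g⁻¹.val).trace := Matrix.trace_mul_comm _ _
      _ = (D A * (g.val * Y * g⁻¹.val)).trace := by simp only [Matrix.mul_assoc]
  -- the difference is trivial mod p
  have h4 : ∀ i j : Fin 3, π ((g⁻¹.val * D A * g.val) i j) = π (D A i j) := by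
    intro i j
    by_contra hne
    have hne' : π ((g⁻¹.val * D A * g.val) i j - D A i j) ≠ 0 := by
      rw [map_sub]
      exact sub_ne_zero.mpr hne
    obtain ⟨u, hu⟩ := h.isUnit hne'
    have h5 := h1 (Matrix.single j i ((u⁻¹ : Aˣ) : A))
    have h6 : ∀ M : Matrix (Fin 3) (Fin 3) A,
        (M * Matrix.single j i ((u⁻¹ : Aˣ) : A)).trace = M i j * ((u⁻¹ : Aˣ) : A) := by
      intro M
      rw [Matrix.trace_mul_comm, Matrix.trace_single_mul, smul_eq_mul, mul_comm]
    rw [h6, h6] at h5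
    apply hχ
    have h7 : (g⁻¹.val * D A * g.val) i j * ((u⁻¹ : Aˣ) : A) =
        D A i j * ((u⁻¹ : Aˣ) : A) + 1 := by
      have h8 : (g⁻¹.val * D A * g.val) i j = D A i j + u := by
        rw [hu]; ring
      rw [h8, add_mul, Units.mul_inv]
    rw [h7, e_add h] at h5
    have h9 := e_ne_zero h χ (D A i j * ((u⁻¹ : Aˣ) : A))
    exact mul_left_cancel₀ h9 (h5.trans (mul_one _).symm)
  show red π g ∈ T p
  rw [mem_T, red_val]
  have hDmap : (D A).map π = D (ZMod p) := by
    ext i j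
    rw [Matrix.map_apply, D, D]
    by_cases hij : i = j
    · subst hij
      simp
    · rw [Matrix.diagonal_apply_ne _ hij, Matrix.diagonal_apply_ne _ hij, map_zero]
  have h5 : (g⁻¹.val * D A * g.val).map π = (D A).map π := by
    ext i j
    exact h4 i j
  have h6 : g.val * (g⁻¹.val * D A * g.val) = D A * g.val := by
    calc g.val * (g⁻¹.val * D A * g.val) = (g.val * g⁻¹.val) * D A * g.val := by
          simp only [Matrix.mul_assoc]
      _ = D A * g.val := by rw [Units.mul_inv, Matrix.one_mul]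
  have h7 := congrArg (fun M : Matrix (Fin 3) (Fin 3) A => M.map π) h6
  rw [Matrix.map_mul, Matrix.map_mul (L := D A), h5, hDmap] at h7
  exact h7

/-- Existence of an irreducible representation of the split regular dimension. -/
theorem exists_rep [Finite A] (h : Good π) (hp : 5 ≤ p) :
    ∃ (V : Type) (_ : AddCommGroup V) (_ : Module ℂ V)
        (ρ : Representation ℂ (GL (Fin 3) A) V),
        FiniteDimensional ℂ V ∧ Nontrivial V ∧
        (∀ W : Submodule ℂ V, (∀ g v, v ∈ W → ρ g v ∈ W) → W = ⊥ ∨ W = ⊤) ∧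
        (∃ g ∈ K π, ρ g ≠ 1) ∧
        Module.finrank ℂ V = p ^ 3 * (p + 1) * (p ^ 2 + p + 1) := by
  classical
  -- a multiplicative character nontrivial at `1 + p`
  obtain ⟨χ0, hχ0⟩ := MulChar.exists_apply_ne_one_of_hasEnoughRootsOfUnity A ℂ
    (a := 1 + (p : A)) (by
      intro h1
      apply h.ne
      have : (1 : A) + p = 1 + 0 := by rw [h1, add_zero]
      exact add_left_cancel this)
  let χ : A →* ℂ := χ0.toMonoidHom
  have hχ : e (p := p) χ 1 ≠ 1 := by
    unfold e
    rw [mul_one]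
    exact hχ0
  have hrank := Pool.Agent.TH3.IndIrr.finrank_eq (S π) (chi h hp χ)
  rw [index_S h hp] at hrank
  refine ⟨Pool.Agent.TH3.IndIrr.V (S π) (chi h hp χ), inferInstance, inferInstance,
    Pool.Agent.TH3.IndIrr.rep (S π) (chi h hp χ),
    Pool.Agent.TH3.IndIrr.finiteDimensional (S π) (chi h hp χ), ?_, ?_, ?_, hrank⟩
  · apply Module.nontrivial_of_finrank_pos (R := ℂ)
    rw [hrank]
    positivity
  · exact Pool.Agent.TH3.IndIrr.irreducible (S π) (chi h hp χ) (K π) (K_normal π) K_le_S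
      (mackey h hp χ hχ)
  · refine ⟨kY h (Matrix.single 0 0 1), kY_mem h _, ?_⟩
    intro h1
    have h2 := congrArg (fun f => (f (Pool.Agent.TH3.IndIrr.delta (S π) (chi h hp χ))).1 1) h1
    simp only [Module.End.one_apply] at h2
    rw [Pool.Agent.TH3.IndIrr.rep_apply, one_mul, Pool.Agent.TH3.IndIrr.delta_one,
      Pool.Agent.TH3.IndIrr.delta_of_mem _ _ (K_le_S (kY_mem h _)), chi_kY] at h2
    apply hχ
    rw [← h2]
    congr 1
    rw [Matrix.trace_mul_comm, Matrix.trace_single_mul]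
    simp [D]

end Pool.Agent.TH3.PartA
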