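import Mathlib

set_option autoImplicit false

namespace Pool.Agent.TH3.Bound

variable {G : Type} [Group G]

/-- A commuting family given by a commutative subgroup has a common eigenvector. -/
theorem exists_eigen (K : Subgroup G) (hcomm : ∀ a ∈ K, ∀ b ∈ K, a * b = b * a)
    {V : Type} [AddCommGroup V] [Module ℂ V] [FiniteDimensional ℂ V] [Nontrivial V]
    (ρ : Representation ℂ G V) :
    ∃ (ψ : K →* ℂ) (v : V), v ≠ 0 ∧ ∀ k : K, ρ k v = ψ k • v := by
  classical
  let P : ℕ → Prop := fun n => ∃ W : Submodule ℂ V, W ≠ ⊥ ∧ (∀ k ∈ K, ∀ w ∈ W, ρ k w ∈ W) ∧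
    Module.finrank ℂ W = n
  have hP : ∃ n, P n := ⟨_, ⊤, top_ne_bot, fun _ _ _ _ => Submodule.mem_top, rfl⟩
  obtain ⟨W, hWne, hWinv, hWrank⟩ := Nat.find_spec hP
  have hmin : ∀ W' : Submodule ℂ V, W' ≠ ⊥ → (∀ k ∈ K, ∀ w ∈ W', ρ k w ∈ W') →
      W' ≤ W → W' = W := by
    intro W' h1 h2 h3
    apply Submodule.eq_of_le_of_finrank_le h3
    rw [hWrank]
    exact Nat.find_min' hP ⟨W', h1, h2, rfl⟩
  have hscal : ∀ k : K, ∃ μ : ℂ, ∀ w ∈ W, ρ k w = μ • w := by
    intro k
    let T : Module.End ℂ W := (ρ k).restrict (fun w hw => hWinv k k.2 w hw)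
    have : Nontrivial W := Submodule.nontrivial_iff_ne_bot.mpr hWne
    obtain ⟨μ, hμ⟩ := Module.End.exists_eigenvalue T
    obtain ⟨w0, hw0⟩ := hμ.exists_hasEigenvector
    have hw0ne : w0 ≠ 0 := hw0.2
    have hw0e : T w0 = μ • w0 := Module.End.mem_eigenspace_iff.mp hw0.1
    let W' : Submodule ℂ V :=
      { carrier := {w | w ∈ W ∧ ρ k w = μ • w}
        add_mem' := by
          rintro a b ⟨ha, ha'⟩ ⟨hb, hb'⟩
          exact ⟨W.add_mem ha hb, by rw [map_add, ha', hb', smul_add]⟩
        zero_mem' := ⟨W.zero_mem, by simp⟩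
        smul_mem' := by
          rintro c a ⟨ha, ha'⟩
          exact ⟨W.smul_mem c ha, by rw [map_smul, ha', smul_comm]⟩ }
    have hW' : W' = W := by
      apply hmin
      · intro hbot
        have : (w0 : V) ∈ W' := ⟨w0.2, by
          have := congrArg Subtype.val hw0e
          simpa [T] using this⟩
        rw [hbot, Submodule.mem_bot] at this
        exact hw0ne (Subtype.ext this)
      · rintro k' hk' w ⟨hw, hw'⟩
        refine ⟨hWinv k' hk' w hw, ?_⟩
        have h1 : ρ k (ρ k' w) = ρ k' (ρ k w) := by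
          rw [← Module.End.mul_apply, ← Module.End.mul_apply, ← map_mul, ← map_mul,
            hcomm k k.2 k' hk']
        rw [h1, hw', map_smul]
      · rintro w ⟨hw, _⟩
        exact hw
    refine ⟨μ, fun w hw => ?_⟩
    rw [← hW'] at hw
    exact hw.2
  choose μ hμ using hscal
  obtain ⟨v, hvW, hv⟩ := (Submodule.ne_bot_iff W).mp hWne
  refine ⟨{ toFun := μ, map_one' := ?_, map_mul' := ?_ }, v, hv, fun k => hμ k v hvW⟩
  · have h1 := hμ 1 v hvW
    simp only [Subgroup.coe_one, map_one, Module.End.one_apply] at h1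
    have h2 : (μ 1 - 1) • v = 0 := by
      rw [sub_smul, one_smul, ← h1, sub_self]
    rcases smul_eq_zero.mp h2 with h3 | h3
    · exact sub_eq_zero.mp h3
    · exact absurd h3 hv
  · intro a b
    have h1 := hμ (a * b) v hvW
    rw [Subgroup.coe_mul, map_mul, Module.End.mul_apply, hμ b v hvW, map_smul, hμ a v hvW] at h1
    have h2 : (μ (a * b) - μ a * μ b) • v = 0 := by
      rw [sub_smul, ← h1, smul_smul, mul_comm (μ b), sub_self]
    rcases smul_eq_zero.mp h2 with h3 | h3
    · exact sub_eq_zero.mp h3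
    · exact absurd h3 hv

/-- The dimension of an irreducible representation is at most the index of the stabiliser of a
line. -/
theorem finrank_le_index [Finite G] {V : Type} [AddCommGroup V] [Module ℂ V]
    [FiniteDimensional ℂ V]
    (ρ : Representation ℂ G V)
    (hirr : ∀ W : Submodule ℂ V, (∀ g v, v ∈ W → ρ g v ∈ W) → W = ⊥ ∨ W = ⊤)
    (H : Subgroup G) (w : V) (hw : w ≠ 0) (hH : ∀ h ∈ H, ∃ c : ℂ, ρ h w = c • w) :
    Module.finrank ℂ V ≤ H.index := by
  classical
  have : Fintype (G ⧸ H) := Fintype.ofFinite _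
  let b : G ⧸ H → V := fun c => ρ (Quotient.out c) w
  let W : Submodule ℂ V := Submodule.span ℂ (Set.range b)
  have hb : ∀ g : G, ρ g w ∈ W := by
    intro g
    have h1 : (Quotient.out (QuotientGroup.mk g : G ⧸ H))⁻¹ * g ∈ H := by
      have := QuotientGroup.mk_out_eq_mul H g
      obtain ⟨h, hh⟩ := this
      rw [hh]
      simp
    obtain ⟨c, hc⟩ := hH _ h1
    have h2 : ρ g w = c • b (QuotientGroup.mk g) := by
      show ρ g w = c • ρ (Quotient.out (QuotientGroup.mk g : G ⧸ H)) w
      rw [← map_smul, ← hc, ← Module.End.mul_apply, ← map_mul]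
      simp
    rw [h2]
    exact Submodule.smul_mem _ _ (Submodule.subset_span ⟨_, rfl⟩)
  have hW : ∀ g v, v ∈ W → ρ g v ∈ W := by
    intro g v hv
    induction hv using Submodule.span_induction with
    | mem x hx =>
      obtain ⟨c, rfl⟩ := hx
      show ρ g (ρ (Quotient.out c) w) ∈ W
      rw [← Module.End.mul_apply, ← map_mul]
      exact hb _
    | zero => simp
    | add x y _ _ hx hy => rw [map_add]; exact W.add_mem hx hy
    | smul a x _ hx => rw [map_smul]; exact W.smul_mem a hx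
  rcases hirr W hW with h | h
  · exfalso
    have h1 := hb 1
    rw [h, Submodule.mem_bot, map_one, Module.End.one_apply] at h1
    exact hw h1
  · have h1 : Module.finrank ℂ W ≤ Fintype.card (G ⧸ H) := finrank_range_le_card b
    rw [h, finrank_top] at h1
    rw [Subgroup.index, Nat.card_eq_fintype_card]
    exact h1

theorem two_mul_finrank_le [Finite G] (K : Subgroup G) (hK : K.Normal)
    (hcomm : ∀ a ∈ K, ∀ b ∈ K, a * b = b * a)
    (hs : ∀ ψ : K →* ℂ, ∃ s : G, s ∉ K ∧
      ∀ (k : G) (hk : k ∈ K), ψ ⟨s⁻¹ * k * s, by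
        have := hK.conj_mem k hk s⁻¹
        simpa using this⟩ = ψ ⟨k, hk⟩)
    {V : Type} [AddCommGroup V] [Module ℂ V] [FiniteDimensional ℂ V] [Nontrivial V]
    (ρ : Representation ℂ G V)
    (hirr : ∀ W : Submodule ℂ V, (∀ g v, v ∈ W → ρ g v ∈ W) → W = ⊥ ∨ W = ⊤) :
    2 * Module.finrank ℂ V ≤ K.index := by
  classical
  obtain ⟨ψ, v, hv, hvψ⟩ := exists_eigen K hcomm ρ
  obtain ⟨s, hsK, hsψ⟩ := hs ψ
  let E : Submodule ℂ V :=
    { carrier := {w | ∀ k : K, ρ k w = ψ k • w}
      add_mem' := by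
        intro a b ha hb k
        rw [map_add, ha k, hb k, smul_add]
      zero_mem' := by
        intro k
        simp
      smul_mem' := by
        intro c a ha k
        rw [map_smul, ha k, smul_comm] }
  have hE : ∀ w ∈ E, ρ s w ∈ E := by
    intro w hw k
    have hk' : s⁻¹ * (k : G) * s ∈ K := by
      have := hK.conj_mem k k.2 s⁻¹
      simpa using this
    have h1 : ρ k (ρ s w) = ρ s (ρ (s⁻¹ * (k : G) * s) w) := by
      rw [← Module.End.mul_apply, ← Module.End.mul_apply, ← map_mul, ← map_mul]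
      congr 2
      group
    rw [h1, hw ⟨_, hk'⟩, map_smul, hsψ k k.2]
  let T : Module.End ℂ E := (ρ s).restrict hE
  have : Nontrivial E := by
    refine Submodule.nontrivial_iff_ne_bot.mpr ?_
    intro hbot
    have : v ∈ E := hvψ
    rw [hbot, Submodule.mem_bot] at this
    exact hv this
  obtain ⟨μ, hμ⟩ := Module.End.exists_eigenvalue T
  obtain ⟨w0, hw0⟩ := hμ.exists_hasEigenvector
  have hw0ne : (w0 : V) ≠ 0 := fun h => hw0.2 (Subtype.ext h)
  have hw0e : ρ s w0 = μ • (w0 : V) := by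
    have h1 : T w0 = μ • w0 := Module.End.mem_eigenspace_iff.mp hw0.1
    have h2 := congrArg Subtype.val h1
    simpa [T] using h2
  let H : Subgroup G :=
    { carrier := {h | ∃ c : ℂ, ρ h w0 = c • (w0 : V)}
      mul_mem' := by
        rintro a b ⟨c, hc⟩ ⟨d, hd⟩
        exact ⟨d * c, by rw [map_mul, Module.End.mul_apply, hd, map_smul, hc, smul_smul]⟩
      one_mem' := ⟨1, by simp⟩
      inv_mem' := by
        rintro a ⟨c, hc⟩
        have h1 : ρ a⁻¹ (ρ a w0) = w0 := by
          rw [← Module.End.mul_apply, ← map_mul, inv_mul_cancel, map_one, Module.End.one_apply]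
        have hc0 : c ≠ 0 := by
          intro h0
          rw [hc, h0, zero_smul, map_zero] at h1
          exact hw0ne h1.symm
        refine ⟨c⁻¹, ?_⟩
        rw [hc, map_smul] at h1
        calc ρ a⁻¹ (w0 : V) = (c⁻¹ * c) • ρ a⁻¹ (w0 : V) := by
              rw [inv_mul_cancel₀ hc0, one_smul]
          _ = c⁻¹ • (w0 : V) := by rw [mul_smul, h1] }
  have hKH : K ≤ H := fun k hk => ⟨ψ ⟨k, hk⟩, w0.2 ⟨k, hk⟩⟩
  have hsH : s ∈ H := ⟨μ, hw0e⟩
  have h1 : Module.finrank ℂ V ≤ H.index := finrank_le_index ρ hirr H w0 hw0ne (fun h hh => hh)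
  have h2 : K.relIndex H * H.index = K.index := Subgroup.relIndex_mul_index hKH
  have h3 : 2 ≤ K.relIndex H := by
    have h4 : K.relIndex H ≠ 0 := Subgroup.index_ne_zero_of_finite
    have h5 : K.relIndex H ≠ 1 := by
      intro h6
      exact hsK (Subgroup.relIndex_eq_one.mp h6 hsH)
    omega
  calc 2 * Module.finrank ℂ V ≤ 2 * H.index := by omega
    _ ≤ K.relIndex H * H.index := Nat.mul_le_mul_right _ h3
    _ = K.index := h2

end Pool.Agent.TH3.Bound
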