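import Mathlib

set_option autoImplicit false

namespace Pool.Agent.TH3.F2

def all (p : Bool → Bool) : Bool := p false && p true
def ex (p : Bool → Bool) : Bool := p false || p true

theorem all_iff (p : Bool → Bool) : all p = true ↔ ∀ x, p x = true := by
  unfold all
  constructor
  · intro h x
    rw [Bool.and_eq_true] at h
    cases x
    · exact h.1
    · exact h.2
  · intro h
    rw [h, h]
    rfl

theorem ex_iff (p : Bool → Bool) : ex p = true ↔ ∃ x, p x = true := by
  unfold ex
  constructor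
  · intro h
    rw [Bool.or_eq_true] at h
    rcases h with h | h
    · exact ⟨_, h⟩
    · exact ⟨_, h⟩
  · rintro ⟨x, hx⟩
    cases x
    · rw [hx]; rfl
    · rw [hx, Bool.or_true]

/-- sum of three products in `F_2` -/
def s3 (a b c x y z : Bool) : Bool := xor (a && x) (xor (b && y) (c && z))

def beq (a b : Bool) : Bool := xor a (!b)

def test (a b c d e f g h i a' b' c' d' e' f' g' h' i' : Bool) : Bool :=
  beq (s3 a b c a' d' g') (s3 a' b' c' a d g) &&
  beq (s3 a b c b' e' h') (s3 a' b' c' b e h) &&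
  beq (s3 a b c c' f' i') (s3 a' b' c' c f i) &&
  beq (s3 d e f a' d' g') (s3 d' e' f' a d g) &&
  beq (s3 d e f b' e' h') (s3 d' e' f' b e h) &&
  beq (s3 d e f c' f' i') (s3 d' e' f' c f i) &&
  beq (s3 g h i a' d' g') (s3 g' h' i' a d g) &&
  beq (s3 g h i b' e' h') (s3 g' h' i' b e h) &&
  beq (s3 g h i c' f' i') (s3 g' h' i' c f i) &&
  (!(a' && !b' && !c' && !d' && e' && !f' && !g' && !h' && i')) &&
  s3 a' b' c' (xor (e' && i') (f' && h')) (xor (d' && i') (f' && g')) (xor (d' && h') (e' && g'))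

theorem main_bool : (all fun a => all fun b => all fun c => all fun d => all fun e => all fun f =>
    all fun g => all fun h => all fun i =>
    ex fun a' => ex fun b' => ex fun c' => ex fun d' => ex fun e' => ex fun f' =>
    ex fun g' => ex fun h' => ex fun i' =>
    test a b c d e f g h i a' b' c' d' e' f' g' h' i') = true := by
  decide +kernel

def toZ (b : Bool) : ZMod 2 := if b then 1 else 0

theorem exists_toZ (x : ZMod 2) : ∃ b, toZ b = x := by
  revert x
  decide

theorem toZ_inj {a b : Bool} (h : toZ a = toZ b) : a = b := by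
  revert a b
  decide

theorem toZ_xor (a b : Bool) : toZ (xor a b) = toZ a + toZ b := by
  revert a b
  decide

theorem toZ_and (a b : Bool) : toZ (a && b) = toZ a * toZ b := by
  revert a b
  decide

theorem toZ_s3 (a b c x y z : Bool) :
    toZ (s3 a b c x y z) = toZ a * toZ x + toZ b * toZ y + toZ c * toZ z := by
  unfold s3
  rw [toZ_xor, toZ_xor, toZ_and, toZ_and, toZ_and, add_assoc]

theorem beq_true {a b : Bool} (h : beq a b = true) : a = b := by
  revert a b
  decide

theorem exists_comm (β : Matrix (Fin 3) (Fin 3) (ZMod 2)) :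
    ∃ s : Matrix (Fin 3) (Fin 3) (ZMod 2), s * β = β * s ∧ s ≠ 1 ∧ s.det = 1 := by
  obtain ⟨a, ha⟩ := exists_toZ (β 0 0)
  obtain ⟨b, hb⟩ := exists_toZ (β 0 1)
  obtain ⟨c, hc⟩ := exists_toZ (β 0 2)
  obtain ⟨d, hd⟩ := exists_toZ (β 1 0)
  obtain ⟨e, he⟩ := exists_toZ (β 1 1)
  obtain ⟨f, hf⟩ := exists_toZ (β 1 2)
  obtain ⟨g, hg⟩ := exists_toZ (β 2 0)
  obtain ⟨h, hh⟩ := exists_toZ (β 2 1)
  obtain ⟨i, hi⟩ := exists_toZ (β 2 2)
  have hm := main_bool
  simp only [all_iff] at hm
  have hm1 := hm a b c d e f g h i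
  simp only [ex_iff] at hm1
  obtain ⟨a', b', c', d', e', f', g', h', i', ht⟩ := hm1
  unfold test at ht
  simp only [Bool.and_eq_true] at ht
  obtain ⟨⟨⟨⟨⟨⟨⟨⟨⟨⟨t1, t2⟩, t3⟩, t4⟩, t5⟩, t6⟩, t7⟩, t8⟩, t9⟩, t10⟩, t11⟩ := ht
  have u1 := congrArg toZ (beq_true t1)
  have u2 := congrArg toZ (beq_true t2)
  have u3 := congrArg toZ (beq_true t3)
  have u4 := congrArg toZ (beq_true t4)
  have u5 := congrArg toZ (beq_true t5)
  have u6 := congrArg toZ (beq_true t6)
  have u7 := congrArg toZ (beq_true t7)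
  have u8 := congrArg toZ (beq_true t8)
  have u9 := congrArg toZ (beq_true t9)
  simp only [toZ_s3] at u1 u2 u3 u4 u5 u6 u7 u8 u9
  have hβ : β = !![toZ a, toZ b, toZ c; toZ d, toZ e, toZ f; toZ g, toZ h, toZ i] := by
    ext r s
    fin_cases r <;> fin_cases s <;> simp [ha, hb, hc, hd, he, hf, hg, hh, hi]
  refine ⟨!![toZ a', toZ b', toZ c'; toZ d', toZ e', toZ f'; toZ g', toZ h', toZ i'], ?_, ?_, ?_⟩
  · rw [hβ]
    ext r s
    fin_cases r <;> fin_cases s <;>
      simp only [Matrix.mul_apply, Fin.sum_univ_three] <;>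
      simp [u1, u2, u3, u4, u5, u6, u7, u8, u9]
  · intro h1
    have e00 := congrFun (congrFun h1 0) 0
    have e01 := congrFun (congrFun h1 0) 1
    have e02 := congrFun (congrFun h1 0) 2
    have e10 := congrFun (congrFun h1 1) 0
    have e11 := congrFun (congrFun h1 1) 1
    have e12 := congrFun (congrFun h1 1) 2
    have e20 := congrFun (congrFun h1 2) 0
    have e21 := congrFun (congrFun h1 2) 1
    have e22 := congrFun (congrFun h1 2) 2
    simp at e00 e01 e02 e10 e11 e12 e20 e21 e22
    have k1 : ∀ x, toZ x = 1 → x = true := by decide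
    have k0 : ∀ x, toZ x = 0 → x = false := by decide
    have q1 := k1 _ e00
    have q2 := k0 _ e01
    have q3 := k0 _ e02
    have q4 := k0 _ e10
    have q5 := k1 _ e11
    have q6 := k0 _ e12
    have q7 := k0 _ e20
    have q8 := k0 _ e21
    have q9 := k1 _ e22
    subst q1 q2 q3 q4 q5 q6 q7 q8 q9
    exact absurd t10 (by decide)
  · have h11 : toZ (s3 a' b' c' (xor (e' && i') (f' && h')) (xor (d' && i') (f' && g'))
      (xor (d' && h') (e' && g'))) = 1 := by rw [t11]; rfl
    simp only [toZ_s3, toZ_xor, toZ_and] at h11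
    rw [Matrix.det_fin_three]
    simp
    have hneg : ∀ x : ZMod 2, -x = x := by decide
    rw [← h11]
    simp only [sub_eq_add_neg, hneg]
    ring

end Pool.Agent.TH3.F2
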