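import Mathlib
import Pool.Agent.TH3.GL3
import Pool.Agent.TH3.Bound
import Pool.Agent.TH3.F2

set_option autoImplicit false

namespace Pool.Agent.TH3.PartB

open Matrix Pool.Agent.TH3.GL3

variable {A : Type} [CommRing A] {π : A →+* ZMod 2}

/-- An additive map from `M_3(F_2)` to `F_2` is a trace form. -/
theorem exists_trace (f : Matrix (Fin 3) (Fin 3) (ZMod 2) →+ ZMod 2) :
    ∃ β : Matrix (Fin 3) (Fin 3) (ZMod 2), ∀ Y, f Y = (β * Y).trace := by
  refine ⟨Matrix.of (fun j i => f (Matrix.single i j 1)), ?_⟩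
  intro Y
  have h1 : ∀ (i j : Fin 3) (a : ZMod 2),
      f (Matrix.single i j a) = a * f (Matrix.single i j 1) := by
    intro i j a
    have ha : a = 0 ∨ a = 1 := by
      revert a
      decide
    rcases ha with rfl | rfl
    · simp
    · simp
  conv_lhs => rw [Matrix.matrix_eq_sum_single Y]
  rw [map_sum]
  simp only [Matrix.trace, Matrix.diag_apply, Matrix.mul_apply, Matrix.of_apply]
  rw [Finset.sum_comm]
  refine Finset.sum_congr rfl (fun i _ => ?_)
  rw [map_sum]
  refine Finset.sum_congr rfl (fun j _ => ?_)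
  rw [h1 i j (Y i j)]
  ring

theorem key (h : Good π) (ψ : (K π) →* ℂ) : ∃ s : GL (Fin 3) A, s ∉ K π ∧
      ∀ (k : GL (Fin 3) A) (hk : k ∈ K π), ψ ⟨s⁻¹ * k * s, by
        have := (K_normal π).conj_mem k hk s⁻¹
        simpa using this⟩ = ψ ⟨k, hk⟩ := by
  classical
  let E : Matrix (Fin 3) (Fin 3) A → ℂ := fun Y => ψ ⟨kY h Y, kY_mem h Y⟩
  have hE_add : ∀ X Y, E (X + Y) = E X * E Y := by
    intro X Y
    show ψ _ = ψ _ * ψ _
    rw [← map_mul]
    congr 1
    apply Subtype.ext
    exact kY_add h X Y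
  have hE_map : ∀ X Y : Matrix (Fin 3) (Fin 3) A, X.map π = Y.map π → E X = E Y := by
    intro X Y hXY
    show ψ _ = ψ _
    congr 1
    apply Subtype.ext
    exact kY_eq h hXY
  have hE0 : E 0 = 1 := by
    show ψ _ = 1
    rw [← map_one ψ]
    congr 1
    apply Subtype.ext
    exact kY_zero h
  have hE2 : ∀ Y, E Y * E Y = 1 := by
    intro Y
    rw [← hE_add, ← hE0]
    apply hE_map
    ext i j
    simp only [Matrix.map_apply, Matrix.add_apply, Matrix.zero_apply, map_add, map_zero]
    exact CharTwo.add_self_eq_zero _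
  have hE1 : ∀ Y, E Y = 1 ∨ E Y = -1 := fun Y => mul_self_eq_one_iff.mp (hE2 Y)
  choose sec hsec using h.surj
  let lift : Matrix (Fin 3) (Fin 3) (ZMod 2) → Matrix (Fin 3) (Fin 3) A := fun Y => Y.map sec
  have hlift : ∀ Y, (lift Y).map π = Y := by
    intro Y
    ext i j
    simp [lift, hsec]
  have hlift' : ∀ Y : Matrix (Fin 3) (Fin 3) A, E (lift (Y.map π)) = E Y := by
    intro Y
    apply hE_map
    rw [hlift]
  let f : Matrix (Fin 3) (Fin 3) (ZMod 2) →+ ZMod 2 :=
    { toFun := fun Y => if E (lift Y) = 1 then 0 else 1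
      map_zero' := by
        have h1 : E (lift 0) = 1 := by
          rw [← hE0]
          apply hE_map
          rw [hlift]
          ext i j
          simp
        simp [h1]
      map_add' := by
        intro X Y
        have h1 : E (lift (X + Y)) = E (lift X) * E (lift Y) := by
          rw [← hE_add]
          apply hE_map
          rw [hlift]
          ext i j
          have e1 := congrFun (congrFun (hlift X) i) j
          have e2 := congrFun (congrFun (hlift Y) i) j
          simp only [Matrix.map_apply, Matrix.add_apply, map_add] at e1 e2 ⊢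
          rw [e1, e2]
        rw [h1]
        have hne : (-1 : ℂ) ≠ 1 := by norm_num
        rcases hE1 (lift X) with hX | hX <;> rcases hE1 (lift Y) with hY | hY <;>
          simp only [hX, hY, hne, if_true, if_false, mul_one, one_mul, add_zero, zero_add,
            mul_neg, neg_neg]
        decide }
  have hf : ∀ Y, f Y = if E (lift Y) = 1 then 0 else 1 := fun Y => rfl
  have hfE : ∀ X Y, f X = f Y → E (lift X) = E (lift Y) := by
    intro X Y hXY
    rw [hf, hf] at hXY
    have hne : (-1 : ℂ) ≠ 1 := by norm_num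
    rcases hE1 (lift X) with hX | hX <;> rcases hE1 (lift Y) with hY | hY
    · rw [hX, hY]
    · simp [hX, hY, hne] at hXY
    · simp [hX, hY, hne] at hXY
    · rw [hX, hY]
  obtain ⟨β, hβ⟩ := exists_trace f
  obtain ⟨s0, hs0c, hs0ne, hs0d⟩ := Pool.Agent.TH3.F2.exists_comm β
  have hs0u : IsUnit s0 := by
    rw [Matrix.isUnit_iff_isUnit_det, hs0d]
    exact isUnit_one
  obtain ⟨s, hs⟩ := h.red_surj hs0u.unit
  refine ⟨s, ?_, ?_⟩
  · intro hsK
    apply hs0ne
    have h1 : red π s = 1 := hsK
    rw [h1] at hs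
    have := congrArg Units.val hs
    simpa using this.symm
  · intro k hk
    obtain ⟨Y, rfl⟩ := h.exists_kY hk
    have h1 : s⁻¹ * kY h Y * s = kY h (s⁻¹.val * Y * s.val) := by
      have := kY_conj h s⁻¹ Y
      rwa [inv_inv] at this
    have h2 : ψ ⟨s⁻¹ * kY h Y * s, by
        have := (K_normal π).conj_mem _ hk s⁻¹
        simpa using this⟩ = E (s⁻¹.val * Y * s.val) := by
      show ψ _ = ψ _
      congr 1
      apply Subtype.ext
      exact h1
    rw [h2]
    show E (s⁻¹.val * Y * s.val) = E Y
    rw [← hlift' (s⁻¹.val * Y * s.val), ← hlift' Y]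
    apply hfE
    rw [hβ, hβ]
    have hsv : s.val.map π = s0 := by
      rw [← red_val, hs]
      rfl
    have hsinv : s0 * (s⁻¹.val.map π) = 1 := by
      rw [← hsv, ← Matrix.map_mul, Units.mul_inv, Matrix.map_one _ (map_zero π) (map_one π)]
    have hsinv' : (s⁻¹.val.map π) * s0 = 1 := by
      rw [← hsv, ← Matrix.map_mul, Units.inv_mul, Matrix.map_one _ (map_zero π) (map_one π)]
    rw [Matrix.map_mul, Matrix.map_mul, hsv]
    set T := s⁻¹.val.map π with hT
    set Z := Y.map π with hZ
    calc (β * (T * Z * s0)).trace = (β * T * Z * s0).trace := by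
          congr 1
          simp only [Matrix.mul_assoc]
      _ = (s0 * (β * T * Z)).trace := Matrix.trace_mul_comm _ _
      _ = ((s0 * β) * T * Z).trace := by
          congr 1
          simp only [Matrix.mul_assoc]
      _ = ((β * s0) * T * Z).trace := by rw [hs0c]
      _ = (β * (s0 * T) * Z).trace := by
          congr 1
          simp only [Matrix.mul_assoc]
      _ = (β * Z).trace := by rw [hsinv, Matrix.mul_one]

theorem card_GL : Nat.card (GL (Fin 3) (ZMod 2)) = 168 := by
  rw [Matrix.card_GL_field, ZMod.card, Fin.prod_univ_three]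
  norm_num

/-- Every irreducible representation of `GL_3(A)` has dimension at most `84`. -/
theorem bound [Finite A] (h : Good π) {V : Type} [AddCommGroup V] [Module ℂ V]
    [FiniteDimensional ℂ V] [Nontrivial V] (ρ : Representation ℂ (GL (Fin 3) A) V)
    (hirr : ∀ W : Submodule ℂ V, (∀ g v, v ∈ W → ρ g v ∈ W) → W = ⊥ ∨ W = ⊤) :
    Module.finrank ℂ V ≤ 84 := by
  have h1 := Pool.Agent.TH3.Bound.two_mul_finrank_le (K π) (K_normal π) h.K_comm (key h) ρ hirr
  rw [h.index_K, card_GL] at h1
  omega

end Pool.Agent.TH3.PartB
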