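import Mathlib
import Pool.Agent.TH3.GL3
import Pool.Agent.TH3.PartA
import Pool.Agent.TH3.PartB

set_option autoImplicit false

namespace Pool.Agent.TH3.Padic

open IsLocalRing Pool.Agent.TH3.GL3

variable (p : ℕ) [Fact p.Prime]

/-- The ring `ℤ_p / 𝔪²`. -/
abbrev A : Type := ℤ_[p] ⧸ maximalIdeal ℤ_[p] ^ 2

theorem sq_le : ∀ a : ℤ_[p], a ∈ maximalIdeal ℤ_[p] ^ 2 → PadicInt.toZMod a = 0 := by
  intro a ha
  have h1 : a ∈ maximalIdeal ℤ_[p] := Ideal.pow_le_self (by norm_num) ha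
  rw [← PadicInt.ker_toZMod] at h1
  exact h1

/-- Reduction to the residue field. -/
noncomputable def pi : A p →+* ZMod p :=
  Ideal.Quotient.lift (maximalIdeal ℤ_[p] ^ 2) PadicInt.toZMod (sq_le p)

theorem pi_mk (a : ℤ_[p]) : pi p (Ideal.Quotient.mk _ a) = PadicInt.toZMod a :=
  Ideal.Quotient.lift_mk _ _ _

theorem good : Good (pi p) where
  surj := by
    intro x
    obtain ⟨a, ha⟩ := ZMod.ringHom_surjective (PadicInt.toZMod (p := p)) x
    exact ⟨Ideal.Quotient.mk _ a, by rw [pi_mk, ha]⟩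
  ker := by
    intro a ha
    obtain ⟨x, rfl⟩ := Ideal.Quotient.mk_surjective a
    rw [pi_mk] at ha
    have h1 : x ∈ maximalIdeal ℤ_[p] := by
      rw [← PadicInt.ker_toZMod]
      exact ha
    rw [PadicInt.maximalIdeal_eq_span_p, Ideal.mem_span_singleton] at h1
    obtain ⟨y, rfl⟩ := h1
    exact ⟨Ideal.Quotient.mk _ y, by rw [map_mul, map_natCast]⟩
  sq := by
    have h1 : (p : ℤ_[p]) * p ∈ maximalIdeal ℤ_[p] ^ 2 := by
      rw [pow_two]
      have : (p : ℤ_[p]) ∈ maximalIdeal ℤ_[p] := by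
        rw [PadicInt.maximalIdeal_eq_span_p]
        exact Ideal.mem_span_singleton_self _
      exact Ideal.mul_mem_mul this this
    have h2 := (Ideal.Quotient.eq_zero_iff_mem).mpr h1
    rw [map_mul, map_natCast] at h2
    exact h2
  ne := by
    intro h0
    have h1 : Ideal.Quotient.mk (maximalIdeal ℤ_[p] ^ 2) (p : ℤ_[p]) = 0 := by
      rw [map_natCast]
      exact h0
    have h2 := (Ideal.Quotient.eq_zero_iff_mem).mp h1
    rw [PadicInt.maximalIdeal_eq_span_p, Ideal.span_singleton_pow,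
      Ideal.mem_span_singleton] at h2
    have hp := PadicInt.prime_p (p := p)
    obtain ⟨c, hc⟩ := h2
    have h3 : (p : ℤ_[p]) * (p * c) = p * 1 := by
      rw [mul_one]
      calc (p : ℤ_[p]) * (p * c) = p ^ 2 * c := by ring
        _ = p := hc.symm
    have h4 := mul_left_cancel₀ hp.ne_zero h3
    exact hp.not_isUnit (IsUnit.of_mul_eq_one c h4)

instance finite_A : Finite (A p) := by
  have h1 : RingHom.ker (PadicInt.toZModPow 2 : ℤ_[p] →+* ZMod (p ^ 2)) =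
      maximalIdeal ℤ_[p] ^ 2 := by
    rw [PadicInt.ker_toZModPow, PadicInt.maximalIdeal_eq_span_p, Ideal.span_singleton_pow]
  have : NeZero (p ^ 2) := ⟨pow_ne_zero 2 (Fact.out (p := p.Prime)).ne_zero⟩
  have e : A p ≃+* (ℤ_[p] ⧸ RingHom.ker (PadicInt.toZModPow 2 : ℤ_[p] →+* ZMod (p ^ 2))) :=
    Ideal.quotEquivOfEq h1.symm
  have f : (ℤ_[p] ⧸ RingHom.ker (PadicInt.toZModPow 2 : ℤ_[p] →+* ZMod (p ^ 2))) →
      ZMod (p ^ 2) := RingHom.kerLift (PadicInt.toZModPow 2)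
  exact Finite.of_injective
    (fun a => RingHom.kerLift (PadicInt.toZModPow 2 : ℤ_[p] →+* ZMod (p ^ 2)) (e a))
    (fun a b hab => e.injective (RingHom.kerLift_injective _ hab))

instance finite_residue : Finite (ResidueField ℤ_[p]) := by
  have : NeZero p := ⟨(Fact.out (p := p.Prime)).ne_zero⟩
  exact Finite.of_equiv _ (PadicInt.residueField (p := p)).symm.toEquiv

theorem card_residue : Nat.card (ResidueField ℤ_[p]) = p := by
  rw [Nat.card_congr (PadicInt.residueField (p := p)).toEquiv, Nat.card_zmod]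

/-- The dimension set of the problem for `N = 3`, `r = 2`. -/
def Dset (R : Type) [CommRing R] [IsLocalRing R] : Set ℤ :=
  {z : ℤ | ∃ (V : Type) (_ : AddCommGroup V) (_ : Module ℂ V)
        (ρ : Representation ℂ
          (Matrix.GeneralLinearGroup (Fin 3) (R ⧸ IsLocalRing.maximalIdeal R ^ 2)) V),
        FiniteDimensional ℂ V ∧ Nontrivial V ∧
        (∀ W : Submodule ℂ V, (∀ g v, v ∈ W → ρ g v ∈ W) → W = ⊥ ∨ W = ⊤) ∧
        (∃ g : Matrix.GeneralLinearGroup (Fin 3) (R ⧸ IsLocalRing.maximalIdeal R ^ 2),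
          (∀ i j, ∃ a ∈ IsLocalRing.maximalIdeal R ^ (2 - 1),
            g.val i j
              - (1 : Matrix (Fin 3) (Fin 3) (R ⧸ IsLocalRing.maximalIdeal R ^ 2)) i j
              = Ideal.Quotient.mk (IsLocalRing.maximalIdeal R ^ 2) a) ∧ ρ g ≠ 1) ∧
        (Module.finrank ℂ V : ℤ) = z}

theorem mem_Dset (hp : 5 ≤ p) :
    ((p : ℤ) ^ 3 * (p + 1) * (p ^ 2 + p + 1)) ∈ Dset ℤ_[p] := by
  obtain ⟨V, iV, mV, ρ, hfd, hnt, hirr, ⟨g, hg, hgρ⟩, hrank⟩ :=
    Pool.Agent.TH3.PartA.exists_rep (good p) hp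
  refine ⟨V, iV, mV, ρ, hfd, hnt, hirr, ⟨g, ?_, hgρ⟩, ?_⟩
  · intro i j
    obtain ⟨Y, hY⟩ := ((good p).mem_K_iff g).mp hg
    obtain ⟨y, hy⟩ := Ideal.Quotient.mk_surjective (Y i j)
    refine ⟨(p : ℤ_[p]) * y, ?_, ?_⟩
    · rw [show 2 - 1 = 1 from rfl, pow_one, PadicInt.maximalIdeal_eq_span_p,
        Ideal.mem_span_singleton]
      exact dvd_mul_right _ _
    · rw [hY, Matrix.add_apply, Matrix.smul_apply, smul_eq_mul, ← hy, map_mul, map_natCast]
      ring
  · rw [hrank]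
    push_cast
    ring

theorem not_mem_Dset : (168 : ℤ) ∉ Dset ℤ_[2] := by
  rintro ⟨V, iV, mV, ρ, hfd, hnt, hirr, -, hrank⟩
  have h1 := Pool.Agent.TH3.PartB.bound (good 2) ρ hirr
  omega

end Pool.Agent.TH3.Padic
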